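import Pool.Agent.W31.LD.Defs

/-! LD-10: the numeric fact `branch0` (problem MP_e96620_co). -/

set_option autoImplicit false
set_option maxHeartbeats 4000000

namespace W31LD.Branch0W177

theorem aux1 : ∀ y : ℕ, 30 ≤ y → 200 * ((y : ℝ) + 3) * (103 / 100) ^ y ≤ 2 ^ y := by
  intro y hy
  induction y, hy using Nat.le_induction with
  | base => norm_num
  | succ n hn ih =>
    have hn' : (30 : ℝ) ≤ n := by exact_mod_cast hn
    have hp : (0 : ℝ) < (103 / 100) ^ n := by positivity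
    have e : 200 * (((n + 1 : ℕ) : ℝ) + 3) * (103 / 100) ^ (n + 1) =
        (200 * ((n : ℝ) + 4) * (103 / 100)) * (103 / 100) ^ n := by
      push_cast
      rw [pow_succ]
      ring
    rw [e, pow_succ]
    have h2 : 200 * ((n : ℝ) + 4) * (103 / 100) ≤ 2 * (200 * ((n : ℝ) + 3)) := by linarith
    calc (200 * ((n : ℝ) + 4) * (103 / 100)) * (103 / 100) ^ n
        ≤ (2 * (200 * ((n : ℝ) + 3))) * (103 / 100) ^ n := mul_le_mul_of_nonneg_right h2 hp.le
      _ = 2 * (200 * ((n : ℝ) + 3) * (103 / 100) ^ n) := by ring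
      _ ≤ 2 * 2 ^ n := by linarith
      _ = 2 ^ n * 2 := by ring

theorem aux2 : ∀ x : ℕ, 12 ≤ x → 50 * ((x : ℝ) + 1) * (101 / 100) ^ x ≤ 2 ^ x := by
  intro y hy
  induction y, hy using Nat.le_induction with
  | base => norm_num
  | succ n hn ih =>
    have hn' : (12 : ℝ) ≤ n := by exact_mod_cast hn
    have hp : (0 : ℝ) < (101 / 100) ^ n := by positivity
    have e : 50 * (((n + 1 : ℕ) : ℝ) + 1) * (101 / 100) ^ (n + 1) =
        (50 * ((n : ℝ) + 2) * (101 / 100)) * (101 / 100) ^ n := by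
      push_cast
      rw [pow_succ]
      ring
    rw [e, pow_succ]
    have h2 : 50 * ((n : ℝ) + 2) * (101 / 100) ≤ 2 * (50 * ((n : ℝ) + 1)) := by linarith
    calc (50 * ((n : ℝ) + 2) * (101 / 100)) * (101 / 100) ^ n
        ≤ (2 * (50 * ((n : ℝ) + 1))) * (101 / 100) ^ n := mul_le_mul_of_nonneg_right h2 hp.le
      _ = 2 * (50 * ((n : ℝ) + 1) * (101 / 100) ^ n) := by ring
      _ ≤ 2 * 2 ^ n := by linarith
      _ = 2 ^ n * 2 := by ring

theorem mu_nonneg (B i : ℕ) (hB : 1 ≤ B) : 0 ≤ mu B i := by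
  unfold mu
  have : 0 ≤ Real.log (B : ℝ) := Real.log_nonneg (by exact_mod_cast hB)
  positivity

theorem mu_le (B i : ℕ) (hB : 1 ≤ B) : mu B i ≤ 1 / 240 := by
  unfold mu
  have h1 : Real.log (B : ℝ) ≤ B := Real.log_le_self (by positivity)
  have hB' : (1 : ℝ) ≤ B := by exact_mod_cast hB
  have hi : (0 : ℝ) ≤ i := by positivity
  rw [div_le_div_iff₀ (by positivity) (by norm_num)]
  linarith

theorem exp_mu_le (B i : ℕ) (hB : 1 ≤ B) : Real.exp (mu B i) ≤ 101 / 100 := by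
  have h1 : (1 : ℝ) - (101 / 100 : ℝ)⁻¹ ≤ Real.log (101 / 100) :=
    Real.one_sub_inv_le_log_of_pos (by norm_num)
  have h2 := mu_le B i hB
  have h3 : mu B i ≤ Real.log (101 / 100) := by
    refine le_trans ?_ h1
    refine h2.trans ?_
    norm_num
  calc Real.exp (mu B i) ≤ Real.exp (Real.log (101 / 100)) := Real.exp_le_exp.mpr h3
    _ = 101 / 100 := Real.exp_log (by norm_num)

theorem gg_eq (B i n : ℕ) (hn : 1 ≤ n) :
    gg B i n * Real.exp (mu B i) ^ n = Real.exp (mu B i) ^ 2 / 2 := by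
  unfold gg
  rw [if_neg (by omega)]
  rw [← Real.exp_nat_mul, ← Real.exp_nat_mul]
  have : (1 : ℝ) / 2 * Real.exp (-(mu B i * ((n : ℝ) - 2))) * Real.exp ((n : ℝ) * mu B i) =
      1 / 2 * (Real.exp (-(mu B i * ((n : ℝ) - 2))) * Real.exp ((n : ℝ) * mu B i)) := by ring
  rw [this, ← Real.exp_add]
  have e : -(mu B i * ((n : ℝ) - 2)) + (n : ℝ) * mu B i = ((2 : ℕ) : ℝ) * mu B i := by
    push_cast
    ring
  rw [e]
  ring

end W31LD.Branch0W177

namespace W31LD.Branch0W177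

open W31LD

theorem done : T_Num_branch0 := by
  refine ⟨1, fun B hB i _ x y hx hy hxy hxy21 hN M hM0 hM1 hM2 => ?_⟩
  set E := Real.exp (mu B (i + 1)) with hE
  set G := E ^ 2 / 2 with hG
  have hE1 : 1 ≤ E := Real.one_le_exp (mu_nonneg B (i + 1) hB)
  have hE2 : E ≤ 101 / 100 := exp_mu_le B (i + 1) hB
  have hE0 : 0 < E := by linarith
  have hG1 : 1 / 2 ≤ G := by rw [hG]; nlinarith
  have hG2 : G ≤ 52 / 100 := by rw [hG]; nlinarith
  have gx : gg B (i + 1) x * E ^ x = G := gg_eq B (i + 1) x hx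
  have gy : gg B (i + 1) y * E ^ y = G := gg_eq B (i + 1) y (by omega)
  have gxy : gg B (i + 1) (x + y) * E ^ (x + y) = G := gg_eq B (i + 1) (x + y) (by omega)
  have hy30 : 30 ≤ y := by omega
  have p2x : (0 : ℝ) < 2 ^ x := by positivity
  have p2y : (0 : ℝ) < 2 ^ y := by positivity
  have pEx : 0 < E ^ x := by positivity
  have pEy : 0 < E ^ y := by positivity
  have pExy : 0 < E ^ (x + y) := by positivity
  -- (A)
  have hA : ((y : ℝ) + 3) * E ^ (x + y) ≤ G * 2 ^ y / 100 := by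
    have h1 : E ^ (x + y) ≤ (103 / 100 : ℝ) ^ y := by
      calc E ^ (x + y) ≤ E ^ (2 * y) := pow_le_pow_right₀ hE1 (by omega)
        _ = (E ^ 2) ^ y := by rw [pow_mul]
        _ ≤ (103 / 100 : ℝ) ^ y := pow_le_pow_left₀ (by positivity) (by nlinarith) y
    have h2 := aux1 y hy30
    have h3 : ((y : ℝ) + 3) * E ^ (x + y) ≤ ((y : ℝ) + 3) * (103 / 100) ^ y :=
      mul_le_mul_of_nonneg_left h1 (by positivity)
    have h4 : 1 / 2 * 2 ^ y ≤ G * 2 ^ y := mul_le_mul_of_nonneg_right hG1 p2y.le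
    linarith
  -- (B)
  have hBB : M * E ^ x ≤ 98 / 100 * 2 ^ x := by
    rcases Nat.lt_or_ge x 12 with h12 | h12
    · have h1 : E ^ x ≤ (101 / 100 : ℝ) ^ 12 := by
        calc E ^ x ≤ E ^ 12 := pow_le_pow_right₀ hE1 (by omega)
          _ ≤ (101 / 100 : ℝ) ^ 12 := pow_le_pow_left₀ hE0.le hE2 12
      calc M * E ^ x ≤ (3 / 4 * 2 ^ x) * (101 / 100 : ℝ) ^ 12 :=
            mul_le_mul hM1 h1 pEx.le (by positivity)
        _ = (3 / 4 * (101 / 100 : ℝ) ^ 12) * 2 ^ x := by ring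
        _ ≤ 98 / 100 * 2 ^ x := mul_le_mul_of_nonneg_right (by norm_num) p2x.le
    · have h1 : E ^ x ≤ (101 / 100 : ℝ) ^ x := pow_le_pow_left₀ hE0.le hE2 x
      have h2 := aux2 x h12
      have pp : (0 : ℝ) < (101 / 100 : ℝ) ^ x := by positivity
      rcases hM2 with h | h
      · have h3 : M * E ^ x ≤ ((x : ℝ) + 1) * (101 / 100 : ℝ) ^ x :=
          mul_le_mul h h1 pEx.le (by positivity)
        nlinarith
      · have h3 : M * E ^ x ≤ (1 + gg B (i + 1) x * 2 ^ x) * E ^ x :=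
          mul_le_mul_of_nonneg_right h pEx.le
        have h4 : (1 + gg B (i + 1) x * 2 ^ x) * E ^ x = E ^ x + G * 2 ^ x := by
          rw [← gx]; ring
        have h5 : (101 / 100 : ℝ) ^ x ≤ ((x : ℝ) + 1) * (101 / 100) ^ x := by
          have : (1 : ℝ) ≤ (x : ℝ) + 1 := by
            have : (0 : ℝ) ≤ x := by positivity
            linarith
          nlinarith
        have h6 : G * 2 ^ x ≤ 52 / 100 * 2 ^ x := mul_le_mul_of_nonneg_right hG2 p2x.le
        nlinarith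
  -- (C)
  have hC : th B i (x + y) ≤ 1 / 100 := by
    unfold th
    have h1 := mu_le B i hB
    have h0 := mu_nonneg B i hB
    have h2 : (3 / 4 : ℝ) ^ (x + y) ≤ (3 / 4 : ℝ) ^ 21 :=
      pow_le_pow_of_le_one (by norm_num) (by norm_num) hxy21
    have h3 : (3 / 4 : ℝ) ^ 21 ≤ 1 / 10 := by norm_num
    have h4 : (0 : ℝ) ≤ (3 / 4 : ℝ) ^ (x + y) := by positivity
    calc 8 * mu B i * (3 / 4) ^ (x + y) ≤ (8 * (1 / 240)) * (1 / 10) :=
          mul_le_mul (by linarith) (h2.trans h3) h4 (by norm_num)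
      _ ≤ 1 / 100 := by norm_num
  -- conclusion
  have key : (M * (gg B (i + 1) y * 2 ^ y) + 2 ^ x * ((y : ℝ) + 3)) * E ^ (x + y) ≤
      ((1 - th B i (x + y)) * (gg B (i + 1) (x + y) * 2 ^ (x + y))) * E ^ (x + y) := by
    have e1 : (M * (gg B (i + 1) y * 2 ^ y) + 2 ^ x * ((y : ℝ) + 3)) * E ^ (x + y) =
        (M * E ^ x) * (gg B (i + 1) y * E ^ y) * 2 ^ y + 2 ^ x * (((y : ℝ) + 3) * E ^ (x + y)) := by
      rw [pow_add]; ring
    have e2 : ((1 - th B i (x + y)) * (gg B (i + 1) (x + y) * 2 ^ (x + y))) * E ^ (x + y) =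
        (1 - th B i (x + y)) * ((gg B (i + 1) (x + y) * E ^ (x + y)) * 2 ^ (x + y)) := by ring
    rw [e1, e2, gy, gxy]
    have pG : 0 < G := by linarith
    have s1 : (M * E ^ x) * G * 2 ^ y ≤ (98 / 100 * 2 ^ x) * G * 2 ^ y :=
      mul_le_mul_of_nonneg_right (mul_le_mul_of_nonneg_right hBB pG.le) p2y.le
    have s2 : 2 ^ x * (((y : ℝ) + 3) * E ^ (x + y)) ≤ 2 ^ x * (G * 2 ^ y / 100) :=
      mul_le_mul_of_nonneg_left hA p2x.le
    have s3 : (99 / 100 : ℝ) * (G * 2 ^ (x + y)) ≤ (1 - th B i (x + y)) * (G * 2 ^ (x + y)) :=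
      mul_le_mul_of_nonneg_right (by linarith) (by positivity)
    have e3 : (98 / 100 * 2 ^ x) * G * 2 ^ y + 2 ^ x * (G * 2 ^ y / 100) =
        (99 / 100 : ℝ) * (G * 2 ^ (x + y)) := by
      rw [pow_add]; ring
    linarith
  exact le_of_mul_le_mul_right key pExy

end W31LD.Branch0W177
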